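import Mathlib
import Pool.Agent.R1.DegBound

/-!
# The magneto-spectral height is bounded below at minimum degree three

For every finite graph `G` with minimum degree at least `d ≥ 3` we prove
`ν(G) > d - 2 √(d - 1)`. Hence `ν_d ≥ d - 2 √(d - 1)` for all `d ≥ 3` and `ν_3 ≥ 3 - 2 √2 > 0`.

The proof uses only the signings `σ = ± 1`. The average over all signings of the characteristic
polynomial of the signed Laplacian is a real rooted polynomial (mixed characteristic polynomial of
the rank one matrices of the edges), and by interlacing some signing has its smallest eigenvalue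
above the smallest root of the average. The average satisfies the recurrence of a weighted matching
polynomial, and the recurrence is solved by ratios at least `√(d - 1)`.
-/

set_option autoImplicit false

namespace Pool.Agent.Results.MP_3489b6_co.MinDegree

open Pool.Agent.R1.Mag

open Classical in
/-- `ν_d`, the infimum of `ν(G)` over all finite graphs `G` (with at least one vertex, on the
vertex sets `Fin n`) of minimum degree at least `d`. -/
noncomputable def nuInf (d : ℕ) : ℝ :=
  sInf {x : ℝ | ∃ (n : ℕ) (G : SimpleGraph (Fin n)), 0 < n ∧ (∀ v, d ≤ G.degree v) ∧ x = nu G}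

open Classical in
lemma nonempty_set (d : ℕ) : {x : ℝ | ∃ (n : ℕ) (G : SimpleGraph (Fin n)), 0 < n ∧
    (∀ v, d ≤ G.degree v) ∧ x = nu G}.Nonempty := by
  refine ⟨_, d + 1, ⊤, Nat.succ_pos d, fun v => ?_, rfl⟩
  have h : ∀ inst : Fintype ((⊤ : SimpleGraph (Fin (d + 1))).neighborSet v),
      @SimpleGraph.degree _ (⊤ : SimpleGraph (Fin (d + 1))) v inst = d := by
    intro inst
    rw [← SimpleGraph.card_neighborFinset_eq_degree]
    have h1 : (⊤ : SimpleGraph (Fin (d + 1))).neighborFinset v = Finset.univ.erase v := by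
      ext w
      rw [SimpleGraph.mem_neighborFinset, SimpleGraph.top_adj, Finset.mem_erase]
      exact ⟨fun h => ⟨h.symm, Finset.mem_univ _⟩, fun h => h.1.symm⟩
    rw [h1, Finset.card_erase_of_mem (Finset.mem_univ _), Finset.card_univ, Fintype.card_fin]
    rfl
  exact (h _).ge

open Classical in
/-- Every finite graph of minimum degree at least `d ≥ 3` has `ν(G) > d - 2 √(d - 1)`; hence
`ν_d ≥ d - 2 √(d - 1)`, and in particular `ν_3 > 0`. -/
theorem result :
    (∀ d : ℕ, 3 ≤ d → ∀ (V : Type) [Fintype V] [Nonempty V] (G : SimpleGraph V),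
      (∀ v, d ≤ G.degree v) → (d : ℝ) - 2 * √((d : ℝ) - 1) < nu G) ∧
    (∀ d : ℕ, 3 ≤ d → (d : ℝ) - 2 * √((d : ℝ) - 1) ≤ nuInf d) ∧
    0 < nuInf 3 := by
  have h1 : ∀ d : ℕ, 3 ≤ d → (d : ℝ) - 2 * √((d : ℝ) - 1) ≤ nuInf d := by
    intro d hd
    refine le_csInf (nonempty_set d) ?_
    rintro x ⟨n, G, hn, hG, rfl⟩
    have : Nonempty (Fin n) := ⟨⟨0, hn⟩⟩
    exact (Pool.Agent.R1.DegBound.degBound G d hd hG).le
  refine ⟨fun d hd V _ _ G hG => Pool.Agent.R1.DegBound.degBound G d hd hG, h1, ?_⟩
  refine lt_of_lt_of_le ?_ (h1 3 le_rfl)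
  have h2 : √(((3 : ℕ) : ℝ) - 1) < 3 / 2 := by
    rw [Real.sqrt_lt' (by norm_num)]
    norm_num
  obtain ⟨q, hq⟩ : ∃ q, q = √(((3 : ℕ) : ℝ) - 1) := ⟨_, rfl⟩
  rw [← hq] at h2 ⊢
  push_cast
  linarith

end Pool.Agent.Results.MP_3489b6_co.MinDegree
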